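import Pool.Agent.P8H81.LP.Stm2

/-!
# Project LPB: package SLO, lower bound of `SS`
-/

set_option autoImplicit false

open MeasureTheory ProbabilityTheory Filter Finset

namespace Pool.Agent.P8H42.LPB

open Pool.Agent.P8H81.LP

theorem harm_lower (N : ℕ) : Real.log ((N : ℝ) + 1) ≤ ∑ n ∈ Icc 1 N, 1 / (n : ℝ) := by
  have h := log_add_one_le_harmonic N
  rw [harmonic_eq_sum_Icc] at h
  push_cast at h
  simpa [one_div] using h

theorem harm_upper (N : ℕ) : ∑ n ∈ Icc 1 N, 1 / (n : ℝ) ≤ 1 + Real.log N := by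
  have h := harmonic_le_one_add_log N
  rw [harmonic_eq_sum_Icc] at h
  push_cast at h
  simpa [one_div] using h

theorem slo : S_SLO := by
  intro a ha
  refine ⟨(1 / 4 : ℝ) ^ (a + 1) * (1 / 4), by positivity, fun B hB => ?_⟩
  have ht : Tendsto (fun N : ℕ => Real.log (N : ℝ)) atTop atTop :=
    Real.tendsto_log_atTop.comp tendsto_natCast_atTop_atTop
  obtain ⟨N₀, hN₀⟩ := eventually_atTop.1 (ht.eventually (eventually_ge_atTop (4 : ℝ)))
  refine ⟨max N₀ 1, fun N hN => ?_⟩
  have hL : 4 ≤ Real.log N := hN₀ N (le_trans (le_max_left _ _) hN)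
  have hN1 : 1 ≤ N := le_trans (le_max_right _ _) hN
  have hN1' : (1 : ℝ) ≤ N := by exact_mod_cast hN1
  have hNpos : (0 : ℝ) < N := by linarith
  set s := Nat.sqrt N with hs
  have hsN : s ≤ N := Nat.sqrt_le_self N
  have hs1 : 1 ≤ s := by
    rw [hs, Nat.le_sqrt]
    omega
  have hs2 : (s : ℝ) ^ 2 ≤ N := by
    have := Nat.sqrt_le' N
    exact_mod_cast this
  have hspos : (0 : ℝ) < s := by exact_mod_cast hs1
  have hlogs : 2 * Real.log s ≤ Real.log N := by
    have h1 := Real.log_le_log (by positivity) hs2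
    rw [Real.log_pow] at h1
    push_cast at h1
    exact h1
  -- the sum of `1 / n` over `s < n ≤ N`
  have hsplit : ∑ n ∈ Icc 1 N, 1 / (n : ℝ) = ∑ n ∈ Icc 1 s, 1 / (n : ℝ) + ∑ n ∈ Ioc s N, 1 / (n : ℝ) := by
    rw [← Finset.sum_union]
    · apply Finset.sum_congr _ (fun _ _ => rfl)
      ext n
      simp only [mem_union, mem_Icc, mem_Ioc]
      omega
    · rw [Finset.disjoint_left]
      intro n h1 h2
      rw [mem_Icc] at h1
      rw [mem_Ioc] at h2
      omega
  have hsum : Real.log N / 4 ≤ ∑ n ∈ Ioc s N, 1 / (n : ℝ) := by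
    have h1 := harm_lower N
    have h2 := harm_upper s
    have h3 : Real.log N ≤ Real.log ((N : ℝ) + 1) := Real.log_le_log hNpos (by linarith)
    linarith
  -- the logarithm of the radius
  have hrad : ∀ n ∈ Ioc s N, (Real.log N / 4) ^ (a + 1) ≤ (Real.log (rad B n)) ^ (a + 1) := by
    intro n hn
    rw [mem_Ioc] at hn
    apply Real.rpow_le_rpow (by linarith) _ (by linarith)
    have h1 : N < (s + 1) * (s + 1) := Nat.lt_succ_sqrt N
    have h2 : (s + 1) * (s + 1) ≤ n * n := Nat.mul_le_mul hn.1 hn.1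
    have h3 : (N : ℝ) ≤ (n : ℝ) ^ 2 := by
      have : N ≤ n ^ 2 := by nlinarith
      exact_mod_cast this
    have h4 : n < (Nat.sqrt n + 1) * (Nat.sqrt n + 1) := Nat.lt_succ_sqrt n
    have h5 : Nat.sqrt n + 1 ≤ rad B n := by
      unfold rad
      exact Nat.le_mul_of_pos_left _ hB
    have h6 : (n : ℝ) ≤ (rad B n : ℝ) ^ 2 := by
      have : n ≤ (rad B n) ^ 2 := by nlinarith
      exact_mod_cast this
    have hn0 : (0 : ℝ) < n := by
      have : 0 < n := by omega
      exact_mod_cast this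
    have h7 := Real.log_le_log hNpos h3
    rw [Real.log_pow] at h7
    have h8 := Real.log_le_log hn0 h6
    rw [Real.log_pow] at h8
    push_cast at h7 h8
    linarith
  have e1 : (Real.log N) ^ (a + 2) = (Real.log N) ^ (a + 1) * Real.log N := by
    rw [show a + 2 = (a + 1) + 1 by ring]
    exact Real.rpow_add_one (by linarith) _
  have e2 : (Real.log N / 4) ^ (a + 1) = (1 / 4 : ℝ) ^ (a + 1) * (Real.log N) ^ (a + 1) := by
    rw [show Real.log N / 4 = (1 / 4) * Real.log N by ring]
    exact Real.mul_rpow (by norm_num) (by linarith)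
  calc (1 / 4 : ℝ) ^ (a + 1) * (1 / 4) * (Real.log N) ^ (a + 2)
      = (Real.log N / 4) ^ (a + 1) * (Real.log N / 4) := by
        rw [e1, e2]
        ring
    _ ≤ (Real.log N / 4) ^ (a + 1) * ∑ n ∈ Ioc s N, 1 / (n : ℝ) :=
        mul_le_mul_of_nonneg_left hsum (Real.rpow_nonneg (by linarith) _)
    _ = ∑ n ∈ Ioc s N, 1 / (n : ℝ) * (Real.log N / 4) ^ (a + 1) := by
        rw [Finset.mul_sum]
        exact Finset.sum_congr rfl fun n _ => by ring
    _ ≤ ∑ n ∈ Ioc s N, 1 / (n : ℝ) * (Real.log (rad B n)) ^ (a + 1) := by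
        apply Finset.sum_le_sum
        intro n hn
        exact mul_le_mul_of_nonneg_left (hrad n hn) (by positivity)
    _ ≤ SS a B N := by
        unfold SS
        apply Finset.sum_le_sum_of_subset_of_nonneg
        · intro n hn
          rw [mem_Ioc] at hn
          rw [mem_Icc]
          omega
        · intro n _ _
          exact mul_nonneg (by positivity) (Real.rpow_nonneg (Real.log_natCast_nonneg _) _)

end Pool.Agent.P8H42.LPB
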